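import Pool.Agent.Work.MP_fa3ce5_an.Bd.B01

set_option autoImplicit false
open MeasureTheory ProbabilityTheory
open scoped symmDiff ENNReal

namespace Pool.Agent.Work.MP_fa3ce5_an

variable {α : Type*} [MeasurableSpace α]

/-- sections of a set independent of the first coordinate have constant measure -/
lemma ae_section_eq (μ : Measure α) [IsProbabilityMeasure μ] {Z : Set (α × α)}
    (hZ : MeasurableSet Z)
    (h : ∀ B : Set α, MeasurableSet B →
      (μ.prod μ) (Z ∩ Prod.fst ⁻¹' B) = (μ.prod μ) Z * (μ.prod μ) (Prod.fst ⁻¹' B)) :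
    ∀ᵐ x ∂μ, μ (Prod.mk x ⁻¹' Z) = (μ.prod μ) Z := by
  refine ae_eq_of_forall_setLIntegral_eq_of_sigmaFinite (μ := μ)
    (f := fun x => μ (Prod.mk x ⁻¹' Z)) (g := fun _ => (μ.prod μ) Z)
    (measurable_measure_prodMk_left hZ) measurable_const (fun B hB _ => ?_)
  have h1 := h B hB
  have e1 : (μ.prod μ) (Z ∩ Prod.fst ⁻¹' B) = ∫⁻ x in B, μ (Prod.mk x ⁻¹' Z) ∂μ := by
    rw [Measure.prod_apply (hZ.inter (measurable_fst hB)), ← lintegral_indicator hB]
    apply lintegral_congr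
    intro x
    by_cases hx : x ∈ B
    · rw [Set.indicator_of_mem hx]
      congr 1
      ext y
      simp [hx]
    · rw [Set.indicator_of_notMem hx]
      have : Prod.mk x ⁻¹' (Z ∩ Prod.fst ⁻¹' B) = ∅ := by
        ext y; simp [hx]
      rw [this, measure_empty]
  have e2 : (μ.prod μ) (Prod.fst ⁻¹' B : Set (α × α)) = μ B := by
    have : (Prod.fst ⁻¹' B : Set (α × α)) = B ×ˢ Set.univ := by ext p; simp
    rw [this, Measure.prod_prod, measure_univ, mul_one]
  rw [← e1, h1, e2, setLIntegral_const]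

lemma good_ae (μ : Measure α) [IsProbabilityMeasure μ] {T : α ≃ᵐ α}
    {F : MeasurableSpace (α × α)} (hF : F ≤ (Prod.instMeasurableSpace : MeasurableSpace (α × α)))
    (hinv : ∀ s : Set (α × α), MeasurableSet[F] s ↔ MeasurableSet[F] (Prod.map ⇑T ⇑T ⁻¹' s))
    (hind : Indep F (MeasurableSpace.comap Prod.fst (inferInstance : MeasurableSpace α))
      (μ.prod μ))
    {D : Set (α × α)} (hD : MeasurableSet[F] D) :
    ∀ᵐ x ∂μ, GoodPt μ T D x := by
  have hiterF : ∀ i : ℕ, MeasurableSet[F] {p : α × α | ((T : α → α)^[i] p.1,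
      (T : α → α)^[i] p.2) ∈ D} := by
    intro i
    induction i with
    | zero => simpa using hD
    | succ i ih =>
      have := (hinv _).1 ih
      have e : (Prod.map ⇑T ⇑T ⁻¹' {p : α × α | ((T : α → α)^[i] p.1,
          (T : α → α)^[i] p.2) ∈ D}) = {p : α × α | ((T : α → α)^[i + 1] p.1,
          (T : α → α)^[i + 1] p.2) ∈ D} := by
        ext p
        simp only [Set.mem_preimage, Set.mem_ofPred_eq, Function.iterate_succ_apply]
        rfl
      rw [e] at this
      exact this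
  have hcylF : ∀ (n : ℕ) (w : Fin n → Bool), MeasurableSet[F] (Cyl T D n w) := by
    intro n w
    have : Cyl T D n w = ⋂ i : Fin n, {p | (((T : α → α)^[(i : ℕ)] p.1,
        (T : α → α)^[(i : ℕ)] p.2) ∈ D ↔ w i = true)} := by
      ext p; simp [Cyl]
    rw [this]
    refine MeasurableSet.iInter (fun i => ?_)
    by_cases hw : w i = true
    · have e : {p : α × α | ((T : α → α)^[(i : ℕ)] p.1,
        (T : α → α)^[(i : ℕ)] p.2) ∈ D ↔ w i = true} = {p : α × α | ((T : α → α)^[(i : ℕ)] p.1,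
        (T : α → α)^[(i : ℕ)] p.2) ∈ D} := by
        ext p; simp [hw]
      rw [e]
      exact hiterF i
    · have e : {p : α × α | ((T : α → α)^[(i : ℕ)] p.1,
        (T : α → α)^[(i : ℕ)] p.2) ∈ D ↔ w i = true} = {p : α × α | ((T : α → α)^[(i : ℕ)] p.1,
        (T : α → α)^[(i : ℕ)] p.2) ∈ D}ᶜ := by
        ext p; simp [hw]
      rw [e]
      exact (hiterF i).compl
  have hDm : @MeasurableSet (α × α) Prod.instMeasurableSpace D := hF _ hD
  unfold GoodPt
  rw [ae_all_iff]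
  intro n
  rw [ae_all_iff]
  intro w
  have h1 := ae_section_eq μ (measurableSet_cyl T hDm n w) (fun B hB =>
    (Indep_iff _ _ _).1 hind _ _ (hcylF n w) ⟨B, hB, rfl⟩)
  filter_upwards [h1] with x hx
  rw [measureReal_def, hx]
  rfl

/-- gap theorem: entropy lower bound -/
theorem gap_entropy [StandardBorelSpace α] (μ : Measure α) [IsProbabilityMeasure μ] {T : α ≃ᵐ α}
    (hT : MeasurePreserving T μ μ) (hErg : Ergodic (Prod.map T T) (μ.prod μ))
    {F : MeasurableSpace (α × α)} (hF : F ≤ (Prod.instMeasurableSpace : MeasurableSpace (α × α)))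
    (hinv : ∀ s : Set (α × α), MeasurableSet[F] s ↔ MeasurableSet[F] (Prod.map ⇑T ⇑T ⁻¹' s))
    (hind : Indep F (MeasurableSpace.comap Prod.fst (inferInstance : MeasurableSpace α))
      (μ.prod μ))
    {D : Set (α × α)} (hD : MeasurableSet[F] D) {δ : ℝ} (hδ : 0 < δ)
    (hgap : Gap μ D δ)
    (hne : ¬ ∃ B : Set α, MeasurableSet B ∧ D =ᵐ[μ.prod μ] (Prod.snd ⁻¹' B : Set (α × α)))
    {c : ℝ} (hc : c < δ * Real.log 2) :
    ∃ (k : ℕ) (f : α → Fin k), Measurable f ∧ ∀ n : ℕ,
      c * (n : ℝ) ≤ ∑ v : Fin n → Fin k,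
        Real.negMulLog ((μ {x | ∀ i : Fin n, f ((⇑T)^[(i : ℕ)] x) = v i}).toReal) := by
  have hDm : @MeasurableSet (α × α) Prod.instMeasurableSpace D := hF _ hD
  have hgood := good_ae μ hF hinv hind hD
  obtain ⟨E, hEm, hcover, -⟩ := exists_classes μ hDm hδ hgap
  have hlog : 0 < Real.log 2 := Real.log_pos (by norm_num)
  set η : ℝ := δ - c / Real.log 2 with hη
  have hηpos : 0 < η := by
    rw [hη, sub_pos, div_lt_iff₀ hlog]; exact hc
  obtain ⟨k, f, hf, h⟩ := transfer μ hT hDm hgood hEm hcover hηpos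
  refine ⟨k, f, hf, fun n => ?_⟩
  have h1 := Hrho_ge μ T hDm δ (fun m => err_ge μ hT hErg hDm hgood hδ hgap hne m) n
  have h2 := h n
  have h3 : (n : ℝ) * (η * Real.log 2) = n * (δ * Real.log 2) - c * n := by
    rw [hη]; field_simp
  linarith

/-- finite unions of rectangles satisfy the gap condition -/
lemma gap_of_rect (μ : Measure α) [IsProbabilityMeasure μ] {D : Set (α × α)} {m : ℕ}
    {A B : Fin m → Set α}
    (hD : D =ᵐ[μ.prod μ] (⋃ i, A i ×ˢ B i : Set (α × α))) :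
    ∃ δ : ℝ, 0 < δ ∧ Gap μ D δ := by
  classical
  set G : Finset (Fin m) → Set α := fun s => ⋃ i ∈ s, B i with hG
  set s : α → Finset (Fin m) := fun x => Finset.univ.filter (fun i => x ∈ A i) with hs
  have hsec : ∀ x, (Prod.mk x ⁻¹' (⋃ i, A i ×ˢ B i : Set (α × α))) = G (s x) := by
    intro x
    ext y
    simp [hG, hs]
  have hae : ∀ᵐ x ∂μ, (Prod.mk x ⁻¹' D : Set α) =ᵐ[μ] G (s x) := by
    have h1 := Measure.ae_ae_of_ae_prod (Filter.eventuallyEq_set.1 hD)
    filter_upwards [h1] with x hx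
    rw [← hsec x]
    exact Filter.eventuallyEq_set.2 hx
  set v : Finset (Fin m) × Finset (Fin m) → ℝ := fun q =>
    if μ (G q.1 ∆ G q.2) = 0 then 1 else (μ (G q.1 ∆ G q.2)).toReal with hv
  have hvpos : ∀ q, 0 < v q := by
    intro q
    simp only [hv]
    split_ifs with h
    · norm_num
    · exact ENNReal.toReal_pos h (measure_ne_top _ _)
  obtain ⟨q0, -, hq0⟩ := Finset.exists_min_image (Finset.univ :
    Finset (Finset (Fin m) × Finset (Fin m))) v Finset.univ_nonempty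
  refine ⟨v q0, hvpos q0, ?_⟩
  have h1 := (Measure.quasiMeasurePreserving_fst (μ := μ) (ν := μ)).ae hae
  have h2 := (Measure.quasiMeasurePreserving_snd (μ := μ) (ν := μ)).ae hae
  unfold Gap
  filter_upwards [h1, h2] with p hp1 hp2
  have e : dd μ D p.1 p.2 = μ (G (s p.1) ∆ G (s p.2)) :=
    measure_congr (ae_eq_set_symmDiff hp1 hp2)
  rw [e]
  by_cases h : μ (G (s p.1) ∆ G (s p.2)) = 0
  · exact Or.inl h
  · right
    have h3 := hq0 (s p.1, s p.2) (Finset.mem_univ _)
    have h4 : v (s p.1, s p.2) = (μ (G (s p.1) ∆ G (s p.2))).toReal := by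
      simp only [hv]
      rw [if_neg h]
    rw [h4] at h3
    exact ENNReal.ofReal_le_of_le_toReal h3

lemma not_snd (μ : Measure α) [IsProbabilityMeasure μ]
    {F : MeasurableSpace (α × α)}
    (hind : Indep F (MeasurableSpace.comap Prod.snd (inferInstance : MeasurableSpace α))
      (μ.prod μ))
    {D : Set (α × α)} (hD : MeasurableSet[F] D) (h0 : 0 < (μ.prod μ) D) (h1 : (μ.prod μ) D < 1) :
    ¬ ∃ B : Set α, MeasurableSet B ∧ D =ᵐ[μ.prod μ] (Prod.snd ⁻¹' B : Set (α × α)) := by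
  rintro ⟨B, hB, hDB⟩
  have h := (Indep_iff _ _ _).1 hind D (Prod.snd ⁻¹' B) hD ⟨B, hB, rfl⟩
  have e1 : (μ.prod μ) (D ∩ Prod.snd ⁻¹' B) = (μ.prod μ) D := by
    apply measure_congr
    have := (ae_eq_refl D).inter hDB.symm
    rwa [Set.inter_self] at this
  rw [e1, ← measure_congr hDB] at h
  have hfin : (μ.prod μ) D ≠ ∞ := measure_ne_top _ _
  have h2 : (μ.prod μ) D * (μ.prod μ) D < (μ.prod μ) D * 1 :=
    ENNReal.mul_lt_mul_right h0.ne' hfin h1
  rw [mul_one, ← h] at h2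
  exact lt_irrefl _ h2

end Pool.Agent.Work.MP_fa3ce5_an
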