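import Pool.Agent.Work.MP_fa3ce5_an.Ten

/-!
# The operator with kernel `k` and its top eigenspace
-/

set_option autoImplicit false

namespace Pool.Agent.Work.MP_fa3ce5_an

open Filter Topology Set
open scoped InnerProductSpace

noncomputable section

namespace Dat

variable {H M : Type*} [NormedAddCommGroup H] [InnerProductSpace ℝ H] [CompleteSpace H]
  [NormedAddCommGroup M] [InnerProductSpace ℝ M] [CompleteSpace M] (D : Dat H M)

theorem tau_add_left (u u' v : H) : D.τ (u + u') v = D.τ u v + D.τ u' v := by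
  rw [← sub_eq_zero, ← inner_self_eq_zero (𝕜 := ℝ)]
  have h1 : ∀ a b, ⟪D.τ (u + u') v - (D.τ u v + D.τ u' v), D.τ a b⟫_ℝ = 0 := by
    intro a b
    rw [inner_sub_left, inner_add_left, D.hτ, D.hτ, D.hτ, inner_add_left]
    ring
  rw [inner_sub_right, inner_add_right, h1, h1, h1]
  ring

theorem tau_add_right (u v v' : H) : D.τ u (v + v') = D.τ u v + D.τ u v' := by
  rw [← sub_eq_zero, ← inner_self_eq_zero (𝕜 := ℝ)]
  have h1 : ∀ a b, ⟪D.τ u (v + v') - (D.τ u v + D.τ u v'), D.τ a b⟫_ℝ = 0 := by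
    intro a b
    rw [inner_sub_left, inner_add_left, D.hτ, D.hτ, D.hτ, inner_add_left]
    ring
  rw [inner_sub_right, inner_add_right, h1, h1, h1]
  ring

theorem tau_smul_left (c : ℝ) (u v : H) : D.τ (c • u) v = c • D.τ u v := by
  rw [← sub_eq_zero, ← inner_self_eq_zero (𝕜 := ℝ)]
  have h1 : ∀ a b, ⟪D.τ (c • u) v - c • D.τ u v, D.τ a b⟫_ℝ = 0 := by
    intro a b
    rw [inner_sub_left, real_inner_smul_left, D.hτ, D.hτ, real_inner_smul_left]
    ring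
  rw [inner_sub_right, real_inner_smul_right, h1, h1]
  ring

theorem tau_smul_right (c : ℝ) (u v : H) : D.τ u (c • v) = c • D.τ u v := by
  rw [← sub_eq_zero, ← inner_self_eq_zero (𝕜 := ℝ)]
  have h1 : ∀ a b, ⟪D.τ u (c • v) - c • D.τ u v, D.τ a b⟫_ℝ = 0 := by
    intro a b
    rw [inner_sub_left, real_inner_smul_left, D.hτ, D.hτ, real_inner_smul_left]
    ring
  rw [inner_sub_right, real_inner_smul_right, h1, h1]
  ring

theorem norm_tau (u v : H) : ‖D.τ u v‖ = ‖u‖ * ‖v‖ := by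
  have h1 : ‖D.τ u v‖ ^ 2 = (‖u‖ * ‖v‖) ^ 2 := by
    rw [← real_inner_self_eq_norm_sq, D.hτ, real_inner_self_eq_norm_sq,
      real_inner_self_eq_norm_sq]
    ring
  exact (sq_eq_sq₀ (norm_nonneg _) (mul_nonneg (norm_nonneg _) (norm_nonneg _))).mp h1

/-- the operator with kernel `k` as a bilinear map -/
def Bl (k : M) (u : H) : H →L[ℝ] ℝ :=
  LinearMap.mkContinuous
    { toFun := fun v => D.Θ u v k
      map_add' := by
        intro v v'
        unfold Θ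
        rw [tau_add_right, inner_add_left]
      map_smul' := by
        intro c v
        unfold Θ
        rw [tau_smul_right, real_inner_smul_left]
        rfl } (‖u‖ * ‖k‖) (by
      intro v
      show ‖D.Θ u v k‖ ≤ _
      unfold Θ
      refine (norm_inner_le_norm _ _).trans ?_
      rw [norm_tau]
      linarith [mul_comm ‖v‖ ‖k‖, mul_assoc ‖u‖ ‖v‖ ‖k‖, mul_assoc ‖u‖ ‖k‖ ‖v‖,
        congrArg (fun t => ‖u‖ * t) (mul_comm ‖v‖ ‖k‖)])

/-- the operator with kernel `k` -/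
def B (k : M) (u : H) : H := (InnerProductSpace.toDual ℝ H).symm (D.Bl k u)

theorem inner_B (k : M) (u v : H) : ⟪D.B k u, v⟫_ℝ = D.Θ u v k := by
  unfold B
  rw [InnerProductSpace.toDual_symm_apply]
  rfl

theorem B_add (k : M) (u u' : H) : D.B k (u + u') = D.B k u + D.B k u' := by
  apply ext_inner_right ℝ
  intro v
  rw [inner_add_left, inner_B, inner_B, inner_B]
  unfold Θ
  rw [tau_add_left, inner_add_left]

theorem B_smul (k : M) (c : ℝ) (u : H) : D.B k (c • u) = c • D.B k u := by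
  apply ext_inner_right ℝ
  intro v
  rw [real_inner_smul_left, inner_B, inner_B]
  unfold Θ
  rw [tau_smul_left, real_inner_smul_left]

theorem norm_B_le (k : M) (u : H) : ‖D.B k u‖ ≤ ‖k‖ * ‖u‖ := by
  have h1 : ‖D.B k u‖ ^ 2 ≤ ‖u‖ * ‖D.B k u‖ * ‖k‖ := by
    rw [← real_inner_self_eq_norm_sq, inner_B]
    unfold Θ
    refine (real_inner_le_norm _ _).trans ?_
    rw [norm_tau]
  rcases eq_or_lt_of_le (norm_nonneg (D.B k u)) with h2 | h2
  · rw [← h2]
    positivity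
  · nlinarith

/-- the operator with kernel `k` as a continuous linear map -/
def Bc (k : M) : H →L[ℝ] H :=
  LinearMap.mkContinuous
    { toFun := D.B k
      map_add' := D.B_add k
      map_smul' := D.B_smul k } ‖k‖ (D.norm_B_le k)

theorem inner_Bc (k : M) (u v : H) : ⟪D.Bc k u, v⟫_ℝ = D.Θ u v k := D.inner_B k u v

/-- the operator is compact: it maps weakly convergent nets to norm convergent nets -/
theorem Bc_compact (k : M) {ι : Type*} {𝒰 : Ultrafilter ι} {a : ι → H} {a' : H} (C : ℝ)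
    (ha : WL 𝒰 a a') (hC : ∀ᶠ i in (𝒰 : Filter ι), ‖a i‖ ≤ C) :
    Tendsto (fun i => D.Bc k (a i)) 𝒰 (𝓝 (D.Bc k a')) := by
  have hC0 : 0 ≤ C := by
    obtain ⟨i, hi⟩ := hC.exists
    exact (norm_nonneg _).trans hi
  have ha'C : ‖a'‖ ≤ C := ha.norm_le hC
  let v : ι → H := fun i => D.Bc k (a i) - D.Bc k a'
  have hv : WL 𝒰 v 0 := by
    intro w
    have h1 : ∀ x, ⟪D.Bc k x, w⟫_ℝ = ⟪x, ContinuousLinearMap.adjoint (D.Bc k) w⟫_ℝ := by
      intro x
      rw [ContinuousLinearMap.adjoint_inner_right]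
    have h2 := (ha (ContinuousLinearMap.adjoint (D.Bc k) w)).sub_const
      ⟪a', ContinuousLinearMap.adjoint (D.Bc k) w⟫_ℝ
    rw [sub_self] at h2
    rw [inner_zero_left]
    refine h2.congr (fun i => ?_)
    show _ = ⟪D.Bc k (a i) - D.Bc k a', w⟫_ℝ
    rw [inner_sub_left, h1, h1]
  have hvb : ∀ᶠ i in (𝒰 : Filter ι), ‖v i‖ ≤ ‖k‖ * (2 * C) := by
    filter_upwards [hC] with i hi
    have h3 : ‖D.Bc k (a i)‖ ≤ ‖k‖ * ‖a i‖ := D.norm_B_le k _
    have h4 : ‖D.Bc k a'‖ ≤ ‖k‖ * ‖a'‖ := D.norm_B_le k _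
    have h5 : ‖k‖ * ‖a i‖ ≤ ‖k‖ * C := mul_le_mul_of_nonneg_left hi (norm_nonneg _)
    have h6 : ‖k‖ * ‖a'‖ ≤ ‖k‖ * C := mul_le_mul_of_nonneg_left ha'C (norm_nonneg _)
    have h7 := norm_sub_le (D.Bc k (a i)) (D.Bc k a')
    show ‖D.Bc k (a i) - D.Bc k a'‖ ≤ _
    linarith
  have h1 := D.WL_tau (max C (‖k‖ * (2 * C))) ha hv
    (hC.mono (fun i hi => hi.trans (le_max_left _ _)))
    (hvb.mono (fun i hi => hi.trans (le_max_right _ _))) k
  have h2 := hv (D.Bc k a')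
  rw [inner_zero_left] at h2
  have h0 : D.τ a' 0 = 0 := by
    rw [← norm_eq_zero, norm_tau, norm_zero, mul_zero]
  rw [h0, inner_zero_left] at h1
  have h3 := h1.sub h2
  rw [sub_zero] at h3
  have h4 : Tendsto (fun i => ‖D.Bc k (a i) - D.Bc k a'‖ ^ 2) 𝒰 (𝓝 0) := by
    refine h3.congr (fun i => ?_)
    rw [← real_inner_self_eq_norm_sq]
    conv_rhs => rw [inner_sub_left]
    rw [inner_Bc, real_inner_comm (v i)]
    rfl
  rw [tendsto_iff_norm_sub_tendsto_zero]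
  have h5 := h4.sqrt
  simpa using h5

/-- `B† B` -/
def BB (k : M) (u : H) : H := ContinuousLinearMap.adjoint (D.Bc k) (D.Bc k u)

theorem inner_BB (k : M) (u v : H) : ⟪D.BB k u, v⟫_ℝ = ⟪D.Bc k u, D.Bc k v⟫_ℝ := by
  unfold BB
  rw [ContinuousLinearMap.adjoint_inner_left]

theorem BB_compact (k : M) {ι : Type*} {𝒰 : Ultrafilter ι} {a : ι → H} {a' : H} (C : ℝ)
    (ha : WL 𝒰 a a') (hC : ∀ᶠ i in (𝒰 : Filter ι), ‖a i‖ ≤ C) :
    Tendsto (fun i => D.BB k (a i)) 𝒰 (𝓝 (D.BB k a')) :=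
  ((ContinuousLinearMap.adjoint (D.Bc k)).continuous.tendsto _).comp (D.Bc_compact k C ha hC)

theorem exists_max (k : M) : ∃ u : H, ‖u‖ ≤ 1 ∧ ‖D.Bc k u‖ = ‖D.Bc k‖ := by
  -- a maximizing sequence
  have h1 : ∀ n : ℕ, ∃ u : H, ‖u‖ ≤ 1 ∧ ‖D.Bc k‖ - 1 / ((n : ℝ) + 1) ≤ ‖D.Bc k u‖ := by
    intro n
    by_contra hcon
    push Not at hcon
    have h2 : (0 : ℝ) < 1 / ((n : ℝ) + 1) := by positivity
    have h3 : 0 ≤ ‖D.Bc k‖ - 1 / ((n : ℝ) + 1) := by
      have := hcon 0 (by simp)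
      simp only [map_zero, norm_zero] at this
      exact this.le
    have h4 : ‖D.Bc k‖ ≤ ‖D.Bc k‖ - 1 / ((n : ℝ) + 1) := by
      refine ContinuousLinearMap.opNorm_le_bound _ h3 (fun u => ?_)
      rcases eq_or_ne u 0 with rfl | hu
      · simp
      · have h5 : 0 < ‖u‖ := norm_pos_iff.mpr hu
        have h6 := hcon (‖u‖⁻¹ • u) (by
          rw [norm_smul, norm_inv, norm_norm, inv_mul_cancel₀ h5.ne'])
        rw [map_smul, norm_smul, norm_inv, norm_norm] at h6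
        have h7 := mul_lt_mul_of_pos_right h6 h5
        rw [mul_comm, ← mul_assoc, mul_inv_cancel₀ h5.ne', one_mul] at h7
        exact h7.le
    linarith
  choose u hu1 hu2 using h1
  obtain ⟨𝒰, h𝒰⟩ : ∃ 𝒰 : Ultrafilter ℕ, (𝒰 : Filter ℕ) ≤ atTop := ⟨Ultrafilter.of atTop,
    Ultrafilter.of_le _⟩
  obtain ⟨a, ha⟩ := exists_wlim 𝒰 u 1 (Eventually.of_forall hu1)
  refine ⟨a, ha.norm_le (Eventually.of_forall hu1), le_antisymm ?_ ?_⟩
  · refine (ContinuousLinearMap.le_opNorm _ _).trans ?_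
    exact mul_le_of_le_one_right (norm_nonneg _) (ha.norm_le (Eventually.of_forall hu1))
  · have h2 := (D.Bc_compact k 1 ha (Eventually.of_forall hu1)).norm
    have h3 : Tendsto (fun n : ℕ => ‖D.Bc k‖ - 1 / ((n : ℝ) + 1)) 𝒰 (𝓝 (‖D.Bc k‖ - 0)) :=
      (tendsto_const_nhds.sub tendsto_one_div_add_atTop_nhds_zero_nat).mono_left h𝒰
    rw [sub_zero] at h3
    exact le_of_tendsto_of_tendsto' h3 h2 hu2

/-- a maximizer is an eigenvector -/
theorem exists_eig (k : M) (hk : D.Bc k ≠ 0) : ∃ u : H, u ≠ 0 ∧ D.BB k u = (‖D.Bc k‖ ^ 2) • u := by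
  obtain ⟨u, hu1, hu2⟩ := D.exists_max k
  refine ⟨u, ?_, ?_⟩
  · rintro rfl
    rw [map_zero, norm_zero] at hu2
    exact hk (norm_eq_zero.mp hu2.symm)
  · rw [← sub_eq_zero, ← norm_eq_zero, ← sq_eq_zero_iff, norm_sub_sq_real, real_inner_smul_right,
      inner_BB, real_inner_self_eq_norm_sq, hu2, norm_smul, norm_pow, norm_norm]
    have h1 : ‖D.BB k u‖ ≤ ‖D.Bc k‖ ^ 2 := by
      unfold BB
      refine (ContinuousLinearMap.le_opNorm _ _).trans ?_
      rw [hu2, LinearIsometryEquiv.norm_map, sq]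
    have h2 : ‖D.BB k u‖ ^ 2 ≤ (‖D.Bc k‖ ^ 2) ^ 2 := pow_le_pow_left₀ (norm_nonneg _) h1 2
    have h3 : (‖D.Bc k‖ ^ 2 * ‖u‖) ^ 2 ≤ (‖D.Bc k‖ ^ 2) ^ 2 := by
      apply pow_le_pow_left₀ (by positivity)
      exact mul_le_of_le_one_right (by positivity) hu1
    have h4 : 0 ≤ ‖D.BB k u‖ ^ 2 - 2 * (‖D.Bc k‖ ^ 2 * ‖D.Bc k‖ ^ 2) +
        (‖D.Bc k‖ ^ 2 * ‖u‖) ^ 2 := by
      have h5 : ‖D.BB k u - (‖D.Bc k‖ ^ 2) • u‖ ^ 2 = ‖D.BB k u‖ ^ 2 -
          2 * (‖D.Bc k‖ ^ 2 * ‖D.Bc k‖ ^ 2) + (‖D.Bc k‖ ^ 2 * ‖u‖) ^ 2 := by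
        rw [norm_sub_sq_real, real_inner_smul_right, inner_BB, real_inner_self_eq_norm_sq, hu2,
          norm_smul, norm_pow, norm_norm]
      rw [← h5]
      positivity
    nlinarith

/-- the top eigenspace -/
def Eig (k : M) : Submodule ℝ H where
  carrier := {u | D.BB k u = (‖D.Bc k‖ ^ 2) • u}
  add_mem' := by
    intro a b ha hb
    show D.BB k (a + b) = _
    have h1 : D.BB k (a + b) = D.BB k a + D.BB k b := by simp [BB]
    rw [h1, show D.BB k a = _ from ha, show D.BB k b = _ from hb, smul_add]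
  zero_mem' := by
    show D.BB k 0 = _
    simp [BB]
  smul_mem' := by
    intro c a ha
    show D.BB k (c • a) = _
    have h1 : D.BB k (c • a) = c • D.BB k a := by simp [BB]
    rw [h1, show D.BB k a = _ from ha, smul_comm]

theorem mem_Eig (k : M) (u : H) : u ∈ D.Eig k ↔ D.BB k u = (‖D.Bc k‖ ^ 2) • u := Iff.rfl

theorem finDim (k : M) (hk : D.Bc k ≠ 0) : FiniteDimensional ℝ (D.Eig k) := by
  have hpos : 0 < ‖D.Bc k‖ ^ 2 := by
    have := norm_pos_iff.mpr hk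
    positivity
  apply FiniteDimensional.of_isCompact_closedBall₀ ℝ (r := 1) one_pos
  rw [isCompact_iff_ultrafilter_le_nhds]
  intro 𝒲 hW
  have hb : ∀ᶠ w : D.Eig k in (𝒲 : Filter (D.Eig k)), ‖(w : H)‖ ≤ 1 := by
    have h1 := hW (mem_principal_self _)
    filter_upwards [h1] with w hw
    simpa using hw
  obtain ⟨a, ha⟩ := exists_wlim 𝒲 (fun w : D.Eig k => (w : H)) 1 hb
  have h1 := D.BB_compact k 1 ha hb
  have h2 : Tendsto (fun w : D.Eig k => (w : H)) 𝒲 (𝓝 ((‖D.Bc k‖ ^ 2)⁻¹ • D.BB k a)) := by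
    refine (h1.const_smul ((‖D.Bc k‖ ^ 2)⁻¹)).congr (fun w => ?_)
    rw [(D.mem_Eig k w).mp w.2, smul_smul, inv_mul_cancel₀ hpos.ne', one_smul]
  have h3 : (‖D.Bc k‖ ^ 2)⁻¹ • D.BB k a = a := by
    refine WL.unique (𝒰 := 𝒲) (w := fun w : D.Eig k => (w : H)) ?_ ha
    intro u
    exact h2.inner tendsto_const_nhds
  have h4 : a ∈ D.Eig k := by
    rw [mem_Eig]
    conv_rhs => rw [← h3]
    rw [smul_smul, mul_inv_cancel₀ hpos.ne', one_smul]
  refine ⟨⟨a, h4⟩, ?_, ?_⟩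
  · simpa using ha.norm_le hb
  · have h5 : Tendsto (fun w : D.Eig k => (w : H)) 𝒲 (𝓝 a) := by
      rw [h3] at h2
      exact h2
    have h6 : Tendsto (fun w : D.Eig k => w) 𝒲 (𝓝 (⟨a, h4⟩ : D.Eig k)) := by
      rw [tendsto_subtype_rng]
      exact h5
    exact h6

end Dat

end

end Pool.Agent.Work.MP_fa3ce5_an
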