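import Pool.Agent.Work.MP_fa3ce5_an.WL

/-!
# Tensor data: three pairwise independent systems
-/

set_option autoImplicit false

namespace Pool.Agent.Work.MP_fa3ce5_an

open Filter Topology Set
open scoped InnerProductSpace

noncomputable section

/-- weak convergence of tensors -/
theorem WL.tensor {ι H₁ M : Type*} [NormedAddCommGroup H₁]
    [InnerProductSpace ℝ H₁] [NormedAddCommGroup M] [InnerProductSpace ℝ M] [CompleteSpace M]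
    {N : Type*} [NormedAddCommGroup N] [InnerProductSpace ℝ N]
    (Z : Set N) (σ : H₁ → N → M)
    (hσ : ∀ u, ∀ k ∈ Z, ∀ u', ∀ k' ∈ Z, ⟪σ u k, σ u' k'⟫_ℝ = ⟪u, u'⟫_ℝ * ⟪k, k'⟫_ℝ)
    (𝒰 : Ultrafilter ι) (a : ι → H₁) (b : ι → N) (a' : H₁) (b' : N) (C : ℝ)
    (hbZ : ∀ i, b i ∈ Z) (hbZ' : b' ∈ Z)
    (ha : WL 𝒰 a a') (hb : WL 𝒰 b b') (hC : ∀ᶠ i in (𝒰 : Filter ι), ‖a i‖ ≤ C)
    (hC' : ∀ᶠ i in (𝒰 : Filter ι), ‖b i‖ ≤ C) :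
    WL 𝒰 (fun i => σ (a i) (b i)) (σ a' b') := by
  have hn : ∀ u, ∀ k ∈ Z, ‖σ u k‖ = ‖u‖ * ‖k‖ := by
    intro u k hk
    have h1 : ‖σ u k‖ ^ 2 = (‖u‖ * ‖k‖) ^ 2 := by
      rw [← real_inner_self_eq_norm_sq, hσ u k hk u k hk, real_inner_self_eq_norm_sq,
        real_inner_self_eq_norm_sq]
      ring
    exact (sq_eq_sq₀ (norm_nonneg _) (mul_nonneg (norm_nonneg _) (norm_nonneg _))).mp h1
  have hC0 : 0 ≤ C := by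
    obtain ⟨i, hi⟩ := hC.exists
    exact (norm_nonneg _).trans hi
  have hbd : ∀ᶠ i in (𝒰 : Filter ι), ‖σ (a i) (b i)‖ ≤ C * C := by
    filter_upwards [hC, hC'] with i h1 h2
    rw [hn _ _ (hbZ i)]
    exact mul_le_mul h1 h2 (norm_nonneg _) hC0
  let S : Submodule ℝ M := Submodule.span ℝ {m | ∃ u, ∃ k ∈ Z, m = σ u k}
  have h0 : ∀ m ∈ S, Tendsto (fun i => ⟪σ (a i) (b i), m⟫_ℝ) 𝒰 (𝓝 ⟪σ a' b', m⟫_ℝ) := by
    intro m hm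
    refine Submodule.span_induction ?_ ?_ ?_ ?_ hm
    · rintro m ⟨u, k, hk, rfl⟩
      rw [hσ a' b' hbZ' u k hk]
      refine ((ha u).mul (hb k)).congr (fun i => ?_)
      rw [hσ (a i) (b i) (hbZ i) u k hk]
    · simp only [inner_zero_right]
      exact tendsto_const_nhds
    · intro x y _ _ hx hy
      simpa only [inner_add_right] using hx.add hy
    · intro c x _ hx
      simpa only [inner_smul_right] using hx.const_mul c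
  have h1 : ∀ m ∈ S.topologicalClosure,
      Tendsto (fun i => ⟪σ (a i) (b i), m⟫_ℝ) 𝒰 (𝓝 ⟪σ a' b', m⟫_ℝ) := by
    intro m hm
    rw [Metric.tendsto_nhds]
    intro ε hε
    have hK : 0 < C * C + ‖σ a' b'‖ + 1 := by positivity
    have hm' : m ∈ closure (S : Set M) := hm
    rw [Metric.mem_closure_iff] at hm'
    obtain ⟨m', hm'S, hd⟩ := hm' (ε / (2 * (C * C + ‖σ a' b'‖ + 1))) (by positivity)
    rw [dist_eq_norm] at hd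
    have h2 := h0 m' hm'S
    rw [Metric.tendsto_nhds] at h2
    filter_upwards [h2 (ε / 2) (by positivity), hbd] with i hi hi'
    rw [Real.dist_eq] at hi ⊢
    have h3 : ⟪σ (a i) (b i), m⟫_ℝ - ⟪σ a' b', m⟫_ℝ =
        (⟪σ (a i) (b i), m'⟫_ℝ - ⟪σ a' b', m'⟫_ℝ) +
          (⟪σ (a i) (b i), m - m'⟫_ℝ - ⟪σ a' b', m - m'⟫_ℝ) := by
      rw [inner_sub_right, inner_sub_right]
      ring
    rw [h3]
    have h4 : |⟪σ (a i) (b i), m - m'⟫_ℝ| ≤ (C * C) * ‖m - m'‖ :=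
      (abs_real_inner_le_norm _ _).trans (mul_le_mul_of_nonneg_right hi' (norm_nonneg _))
    have h5 : |⟪σ a' b', m - m'⟫_ℝ| ≤ ‖σ a' b'‖ * ‖m - m'‖ := abs_real_inner_le_norm _ _
    have h6 : (C * C + ‖σ a' b'‖ + 1) * ‖m - m'‖ < ε / 2 := by
      rw [lt_div_iff₀ (by positivity)] at hd
      linarith
    have h7 : 0 ≤ ‖m - m'‖ := norm_nonneg _
    calc _ ≤ |⟪σ (a i) (b i), m'⟫_ℝ - ⟪σ a' b', m'⟫_ℝ| +
          (|⟪σ (a i) (b i), m - m'⟫_ℝ| + |⟪σ a' b', m - m'⟫_ℝ|) :=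
          (abs_add_le _ _).trans (add_le_add le_rfl (abs_sub _ _))
      _ < ε := by nlinarith
  intro m
  have hcomp : CompleteSpace S.topologicalClosure :=
    (S.isClosed_topologicalClosure).completeSpace_coe
  obtain ⟨y, hy, z, hz, rfl⟩ := S.topologicalClosure.exists_add_mem_mem_orthogonal m
  have h2 : ∀ u, ∀ k ∈ Z, ⟪σ u k, z⟫_ℝ = 0 := by
    intro u k hk
    exact hz _ (S.le_topologicalClosure (Submodule.subset_span ⟨u, k, hk, rfl⟩))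
  simp only [inner_add_right, h2 a' b' hbZ', add_zero]
  refine (h1 y hy).congr (fun i => ?_)
  rw [h2 _ _ (hbZ i), add_zero]

theorem WL_const {ι H : Type*} [NormedAddCommGroup H] [InnerProductSpace ℝ H] (𝒰 : Ultrafilter ι)
    (a : H) : WL 𝒰 (fun _ : ι => a) a :=
  fun _ => tendsto_const_nhds

/-- the data: the space `H` of both coordinates, the space `M` of the product, the subspace `Z` of the
factor -/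
structure Dat (H M : Type*) [NormedAddCommGroup H] [InnerProductSpace ℝ H]
    [NormedAddCommGroup M] [InnerProductSpace ℝ M] where
  /-- the operator on the coordinate space -/
  U : H ≃ₗᵢ[ℝ] H
  /-- the operator on the product space -/
  V : M ≃ₗᵢ[ℝ] M
  /-- the subspace of the factor -/
  Z : Submodule ℝ M
  hZc : IsClosed (Z : Set M)
  hZ1 : ∀ k ∈ Z, V k ∈ Z
  hZ2 : ∀ k ∈ Z, V.symm k ∈ Z
  /-- the tensor product -/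
  τ : H → H → M
  hτ : ∀ u v u' v', ⟪τ u v, τ u' v'⟫_ℝ = ⟪u, u'⟫_ℝ * ⟪v, v'⟫_ℝ
  hVτ : ∀ u v, V (τ u v) = τ (U u) (U v)
  hnd : ∀ k ∈ Z, (∀ u v, ⟪τ u v, k⟫_ℝ = 0) → k = 0
  /-- the constant function -/
  e : H
  /-- the product of a function of the first coordinate and a function of the factor -/
  σ₁ : H → M → M
  hσ₁ : ∀ u, ∀ k ∈ Z, ∀ u', ∀ k' ∈ Z, ⟪σ₁ u k, σ₁ u' k'⟫_ℝ = ⟪u, u'⟫_ℝ * ⟪k, k'⟫_ℝ
  hτσ₁ : ∀ u v, ∀ k ∈ Z, ⟪τ u v, k⟫_ℝ = ⟪σ₁ u k, τ e v⟫_ℝ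
  /-- the product of a function of the second coordinate and a function of the factor -/
  σ₂ : H → M → M
  hσ₂ : ∀ u, ∀ k ∈ Z, ∀ u', ∀ k' ∈ Z, ⟪σ₂ u k, σ₂ u' k'⟫_ℝ = ⟪u, u'⟫_ℝ * ⟪k, k'⟫_ℝ
  hτσ₂ : ∀ u v, ∀ k ∈ Z, ⟪τ u v, k⟫_ℝ = ⟪σ₂ v k, τ u e⟫_ℝ

namespace Dat

variable {H M : Type*} [NormedAddCommGroup H] [InnerProductSpace ℝ H] [CompleteSpace H]
  [NormedAddCommGroup M] [InnerProductSpace ℝ M] [CompleteSpace M] (D : Dat H M)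

theorem pow_mem (n : ℤ) {k : M} (hk : k ∈ D.Z) : (D.V ^ n) k ∈ D.Z := by
  induction n using Int.induction_on with
  | zero => simpa using hk
  | succ n ih =>
    rw [add_comm, pow_add_apply]
    simpa using D.hZ1 _ ih
  | pred n ih =>
    rw [sub_eq_add_neg, add_comm, pow_add_apply]
    have h1 : (D.V ^ (-1 : ℤ)) = D.V.symm := by
      rw [zpow_neg_one]
      rfl
    rw [h1]
    exact D.hZ2 _ ih

theorem pow_tau (n : ℤ) (u v : H) : (D.V ^ n) (D.τ u v) = D.τ ((D.U ^ n) u) ((D.U ^ n) v) := by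
  induction n using Int.induction_on with
  | zero => simp
  | succ n ih =>
    rw [add_comm, pow_add_apply, ih, pow_add_apply, pow_add_apply]
    simpa using D.hVτ _ _
  | pred n ih =>
    have h1 : (D.V ^ (-1 : ℤ)) = D.V.symm := by
      rw [zpow_neg_one]
      rfl
    have h2 : (D.U ^ (-1 : ℤ)) = D.U.symm := by
      rw [zpow_neg_one]
      rfl
    rw [sub_eq_add_neg, add_comm, pow_add_apply, ih, pow_add_apply, pow_add_apply, h1, h2,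
      LinearIsometryEquiv.symm_apply_eq, D.hVτ, LinearIsometryEquiv.apply_symm_apply,
      LinearIsometryEquiv.apply_symm_apply]

/-- the trilinear form -/
def Θ (u v : H) (k : M) : ℝ := ⟪D.τ u v, k⟫_ℝ

theorem Θ_pow (n : ℤ) (u v : H) (k : M) :
    D.Θ ((D.U ^ n) u) ((D.U ^ n) v) ((D.V ^ n) k) = D.Θ u v k := by
  unfold Θ
  rw [← D.pow_tau, LinearIsometryEquiv.inner_map_map]

theorem mem_of_WL {ι : Type*} {𝒰 : Ultrafilter ι} {w : ι → M} {a : M} (h : WL 𝒰 w a)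
    (hw : ∀ i, w i ∈ D.Z) : a ∈ D.Z := by
  have hcomp : CompleteSpace D.Z := D.hZc.completeSpace_coe
  rw [← Submodule.orthogonal_orthogonal D.Z]
  intro z hz
  rw [real_inner_comm]
  refine tendsto_nhds_unique (h z) ?_
  refine (tendsto_const_nhds (x := (0 : ℝ))).congr (fun i => ?_)
  exact (hz _ (hw i)).symm

theorem PP_mem (𝒰 : Ultrafilter ℤ) {k : M} (hk : k ∈ D.Z) : PP D.V 𝒰 k ∈ D.Z :=
  D.mem_of_WL (PP_spec D.V 𝒰 k) (fun n => D.pow_mem n hk)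

theorem PA_mem (𝒰 : Ultrafilter ℤ) {k : M} (hk : k ∈ D.Z) : PA D.V 𝒰 k ∈ D.Z :=
  D.mem_of_WL (PA_spec D.V 𝒰 k) (fun n => D.pow_mem (-n) hk)

/-- weak convergence of the tensors -/
theorem WL_tau {ι : Type*} {𝒰 : Ultrafilter ι} {a b : ι → H} {a' b' : H} (C : ℝ)
    (ha : WL 𝒰 a a') (hb : WL 𝒰 b b') (hC : ∀ᶠ i in (𝒰 : Filter ι), ‖a i‖ ≤ C)
    (hC' : ∀ᶠ i in (𝒰 : Filter ι), ‖b i‖ ≤ C) :
    WL 𝒰 (fun i => D.τ (a i) (b i)) (D.τ a' b') :=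
  WL.tensor univ D.τ (fun u k _ u' k' _ => D.hτ u k u' k') 𝒰 a b a' b' C (fun _ => mem_univ _)
    (mem_univ _) ha hb hC hC'

theorem bd_pow (𝒰 : Ultrafilter ℤ) (u : H) (C : ℝ) (hC : ‖u‖ ≤ C) (f : ℤ → ℤ) :
    ∀ᶠ n in (𝒰 : Filter ℤ), ‖(D.U ^ (f n)) u‖ ≤ C :=
  Eventually.of_forall (fun n => by rw [LinearIsometryEquiv.norm_map]; exact hC)

theorem bd_powV (𝒰 : Ultrafilter ℤ) (k : M) (C : ℝ) (hC : ‖k‖ ≤ C) (f : ℤ → ℤ) :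
    ∀ᶠ n in (𝒰 : Filter ℤ), ‖(D.V ^ (f n)) k‖ ≤ C :=
  Eventually.of_forall (fun n => by rw [LinearIsometryEquiv.norm_map]; exact hC)

/-! ### The relations for `P` -/

theorem R1 (𝒰 : Ultrafilter ℤ) (u v : H) (k : M) :
    D.Θ (PP D.U 𝒰 u) (PP D.U 𝒰 v) k = D.Θ u v (PA D.V 𝒰 k) := by
  have h1 := D.WL_tau (max ‖u‖ ‖v‖) (PP_spec D.U 𝒰 u) (PP_spec D.U 𝒰 v)
    (D.bd_pow 𝒰 u _ (le_max_left _ _) id) (D.bd_pow 𝒰 v _ (le_max_right _ _) id) k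
  have h2 : Tendsto (fun n : ℤ => ⟪(D.V ^ n) (D.τ u v), k⟫_ℝ) 𝒰
      (𝓝 ⟪PP D.V 𝒰 (D.τ u v), k⟫_ℝ) := PP_spec D.V 𝒰 _ k
  have h3 : ⟪PP D.V 𝒰 (D.τ u v), k⟫_ℝ = D.Θ u v (PA D.V 𝒰 k) := by
    unfold Θ PA
    rw [ContinuousLinearMap.adjoint_inner_right]
  rw [← h3]
  refine tendsto_nhds_unique h1 (h2.congr (fun n => ?_))
  rw [D.pow_tau]

theorem R1' (𝒰 : Ultrafilter ℤ) (u v : H) (k : M) :
    D.Θ (PA D.U 𝒰 u) (PA D.U 𝒰 v) k = D.Θ u v (PP D.V 𝒰 k) := by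
  have h1 := D.WL_tau (max ‖u‖ ‖v‖) (PA_spec D.U 𝒰 u) (PA_spec D.U 𝒰 v)
    (D.bd_pow 𝒰 u _ (le_max_left _ _) (fun n => -n)) (D.bd_pow 𝒰 v _ (le_max_right _ _)
      (fun n => -n)) k
  have h2 : Tendsto (fun n : ℤ => ⟪(D.V ^ (-n)) (D.τ u v), k⟫_ℝ) 𝒰
      (𝓝 ⟪PA D.V 𝒰 (D.τ u v), k⟫_ℝ) := PA_spec D.V 𝒰 _ k
  have h3 : ⟪PA D.V 𝒰 (D.τ u v), k⟫_ℝ = D.Θ u v (PP D.V 𝒰 k) := by
    unfold Θ PA
    rw [ContinuousLinearMap.adjoint_inner_left]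
  rw [← h3]
  refine tendsto_nhds_unique h1 (h2.congr (fun n => ?_))
  rw [D.pow_tau]

theorem R2 (𝒰 : Ultrafilter ℤ) (u v : H) {k : M} (hk : k ∈ D.Z) :
    D.Θ (PP D.U 𝒰 u) v (PP D.V 𝒰 k) = D.Θ u (PA D.U 𝒰 v) k := by
  have h1 := WL.tensor (D.Z : Set M) D.σ₁ D.hσ₁ 𝒰 (fun n => (D.U ^ n) u) (fun n => (D.V ^ n) k)
    (PP D.U 𝒰 u) (PP D.V 𝒰 k) (max ‖u‖ ‖k‖) (fun n => D.pow_mem n hk) (D.PP_mem 𝒰 hk)
    (PP_spec D.U 𝒰 u) (PP_spec D.V 𝒰 k) (D.bd_pow 𝒰 u _ (le_max_left _ _) id)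
    (D.bd_powV 𝒰 k _ (le_max_right _ _) id) (D.τ D.e v)
  have h2 := D.WL_tau (max ‖u‖ ‖v‖) (WL_const 𝒰 u) (PA_spec D.U 𝒰 v)
    (Eventually.of_forall (fun n => le_max_left _ _)) (D.bd_pow 𝒰 v _ (le_max_right _ _)
      (fun n => -n)) k
  unfold Θ
  rw [D.hτσ₁ _ _ _ (D.PP_mem 𝒰 hk)]
  refine tendsto_nhds_unique h1 (h2.congr (fun n => ?_))
  show ⟪D.τ u ((D.U ^ (-n)) v), k⟫_ℝ = ⟪D.σ₁ ((D.U ^ n) u) ((D.V ^ n) k), D.τ D.e v⟫_ℝ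
  rw [← D.hτσ₁ _ _ _ (D.pow_mem n hk)]
  have h3 := D.Θ_pow n u ((D.U ^ (-n)) v) k
  rw [← pow_add_apply, add_neg_cancel, zpow_zero] at h3
  exact h3.symm

theorem R3 (𝒰 : Ultrafilter ℤ) (u v : H) {k : M} (hk : k ∈ D.Z) :
    D.Θ u (PP D.U 𝒰 v) (PP D.V 𝒰 k) = D.Θ (PA D.U 𝒰 u) v k := by
  have h1 := WL.tensor (D.Z : Set M) D.σ₂ D.hσ₂ 𝒰 (fun n => (D.U ^ n) v) (fun n => (D.V ^ n) k)
    (PP D.U 𝒰 v) (PP D.V 𝒰 k) (max ‖v‖ ‖k‖) (fun n => D.pow_mem n hk) (D.PP_mem 𝒰 hk)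
    (PP_spec D.U 𝒰 v) (PP_spec D.V 𝒰 k) (D.bd_pow 𝒰 v _ (le_max_left _ _) id)
    (D.bd_powV 𝒰 k _ (le_max_right _ _) id) (D.τ u D.e)
  have h2 := D.WL_tau (max ‖u‖ ‖v‖) (PA_spec D.U 𝒰 u) (WL_const 𝒰 v)
    (D.bd_pow 𝒰 u _ (le_max_left _ _) (fun n => -n))
    (Eventually.of_forall (fun n => le_max_right _ _)) k
  unfold Θ
  rw [D.hτσ₂ _ _ _ (D.PP_mem 𝒰 hk)]
  refine tendsto_nhds_unique h1 (h2.congr (fun n => ?_))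
  show ⟪D.τ ((D.U ^ (-n)) u) v, k⟫_ℝ = ⟪D.σ₂ ((D.U ^ n) v) ((D.V ^ n) k), D.τ u D.e⟫_ℝ
  rw [← D.hτσ₂ _ _ _ (D.pow_mem n hk)]
  have h3 := D.Θ_pow n ((D.U ^ (-n)) u) v k
  rw [← pow_add_apply, add_neg_cancel, zpow_zero] at h3
  exact h3.symm

theorem E1a (𝒰 : Ultrafilter ℤ) (u v : H) (k : M) :
    D.Θ (PP D.U 𝒰 u) (PP D.U 𝒰 v) (PP D.V 𝒰 k) = D.Θ u v (AA D.V 𝒰 k) := D.R1 𝒰 u v _

theorem E1b (𝒰 : Ultrafilter ℤ) (u v : H) {k : M} (hk : k ∈ D.Z) :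
    D.Θ (PP D.U 𝒰 u) (PP D.U 𝒰 v) (PP D.V 𝒰 k) = D.Θ u (AA D.U 𝒰 v) k := D.R2 𝒰 u _ hk

theorem E1c (𝒰 : Ultrafilter ℤ) (u v : H) {k : M} (hk : k ∈ D.Z) :
    D.Θ (PP D.U 𝒰 u) (PP D.U 𝒰 v) (PP D.V 𝒰 k) = D.Θ (AA D.U 𝒰 u) v k := D.R3 𝒰 _ v hk

theorem AA_mem (𝒰 : Ultrafilter ℤ) {k : M} (hk : k ∈ D.Z) : AA D.V 𝒰 k ∈ D.Z :=
  D.PA_mem 𝒰 (D.PP_mem 𝒰 hk)

/-- `A_X` can be moved to the factor -/
theorem move1 (𝒰 : Ultrafilter ℤ) (u v : H) {k : M} (hk : k ∈ D.Z) :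
    D.Θ (AA D.U 𝒰 u) v k = D.Θ u v (AA D.V 𝒰 k) := by
  rw [← D.E1c 𝒰 u v hk, D.E1a]

theorem move2 (𝒰 : Ultrafilter ℤ) (u v : H) {k : M} (hk : k ∈ D.Z) :
    D.Θ u (AA D.U 𝒰 v) k = D.Θ u v (AA D.V 𝒰 k) := by
  rw [← D.E1b 𝒰 u v hk, D.E1a]

theorem Θ_sub (u v : H) (k k' : M) : D.Θ u v (k - k') = D.Θ u v k - D.Θ u v k' := by
  unfold Θ
  rw [inner_sub_right]

/-- `A` is a projection on the space of the factor -/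
theorem AA_idem (𝒰 : Ultrafilter ℤ) {k : M} (hk : k ∈ D.Z) :
    AA D.V 𝒰 (AA D.V 𝒰 k) = AA D.V 𝒰 k := by
  have hA := D.AA_mem 𝒰 hk
  have hAA := D.AA_mem 𝒰 hA
  have h1 : AA D.V 𝒰 (AA D.V 𝒰 (AA D.V 𝒰 k)) - AA D.V 𝒰 (AA D.V 𝒰 k) = 0 := by
    apply D.hnd _ (D.Z.sub_mem (D.AA_mem 𝒰 hAA) hAA)
    intro u v
    show D.Θ u v _ = 0
    rw [D.Θ_sub, sub_eq_zero]
    -- the left-hand side
    have h2 : D.Θ (AA D.U 𝒰 u) (AA D.U 𝒰 v) (AA D.V 𝒰 k) =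
        D.Θ u v (AA D.V 𝒰 (AA D.V 𝒰 (AA D.V 𝒰 k))) := by
      rw [D.move1 𝒰 u _ hA, D.move2 𝒰 u v hAA]
    -- the right-hand side
    have h3 : D.Θ (AA D.U 𝒰 u) (AA D.U 𝒰 v) (AA D.V 𝒰 k) =
        D.Θ u v (AA D.V 𝒰 (AA D.V 𝒰 k)) := by
      have h4 : D.Θ (AA D.U 𝒰 u) (AA D.U 𝒰 v) (AA D.V 𝒰 k) =
          D.Θ (PP D.U 𝒰 u) (PP D.U 𝒰 v) (PP D.V 𝒰 (AA D.V 𝒰 k)) := by
        show D.Θ (PA D.U 𝒰 (PP D.U 𝒰 u)) (PA D.U 𝒰 (PP D.U 𝒰 v)) _ = _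
        rw [D.R1']
      rw [h4, D.E1a]
    rw [← h2, h3]
  have h2 : AA D.V 𝒰 (AA D.V 𝒰 k) - AA D.V 𝒰 k = 0 := by
    rw [← inner_self_eq_zero (𝕜 := ℝ), ← AA_sub, inner_AA', AA_sub, AA_sub, h1,
      inner_zero_right]
  exact sub_eq_zero.mp h2

end Dat

end

end Pool.Agent.Work.MP_fa3ce5_an
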