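import Pool.Agent.Work.MP_fa3ce5_an.Bd.B05

/-!
# Partially rigid transformations have no independent factors of the square
-/

set_option autoImplicit false

namespace Pool.Agent.Work.MP_fa3ce5_an

open Filter Topology Set MeasureTheory ProbabilityTheory
open scoped InnerProductSpace ENNReal symmDiff

noncomputable section

/-- partial rigidity -/
def PartiallyRigid {Ω : Type*} [MeasurableSpace Ω] (ν : Measure Ω) (S : Ω → Ω) : Prop :=
  ∃ c : ℝ≥0∞, 0 < c ∧ ∃ n : ℕ → ℕ, Tendsto n atTop atTop ∧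
    ∀ A : Set Ω, MeasurableSet A → c * ν A ≤ liminf (fun j => ν (A ∩ S^[n j] ⁻¹' A)) atTop

theorem PartiallyRigid.PR {Ω : Type*} [MeasurableSpace Ω] {ν : Measure Ω}
    [IsProbabilityMeasure ν] {S : Ω → Ω} (h : PartiallyRigid ν S) :
    ∃ c : ℝ, 0 < c ∧ c ≤ 1 ∧ ∃ n : ℕ → ℕ, Tendsto n atTop atTop ∧
      MP_fa3ce5_an.PR ν S c n := by
  obtain ⟨c, hc0, n, hn, h⟩ := h
  have hc1 : c ≤ 1 := by
    have h1 := h univ MeasurableSet.univ
    simpa using h1
  have hctop : c ≠ ∞ := ne_top_of_le_ne_top ENNReal.one_ne_top hc1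
  refine ⟨c.toReal, ENNReal.toReal_pos hc0.ne' hctop, ?_, n, hn, ?_⟩
  · rw [← ENNReal.toReal_one]
    exact ENNReal.toReal_mono ENNReal.one_ne_top hc1
  · intro A hA δ hδ
    have h1 : c.toReal * ν.real A = (c * ν A).toReal := by
      rw [ENNReal.toReal_mul]
      rfl
    have hfin : c * ν A ≠ ∞ := ENNReal.mul_ne_top hctop (measure_ne_top _ _)
    rcases eq_or_ne (c * ν A) 0 with h0 | h0
    · refine Eventually.of_forall (fun j => ?_)
      rw [h1, h0]
      have : 0 ≤ ν.real (A ∩ S^[n j] ⁻¹' A) := measureReal_nonneg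
      simp only [ENNReal.toReal_zero, zero_sub]
      linarith
    · have h2 : c * ν A - ENNReal.ofReal δ < liminf (fun j => ν (A ∩ S^[n j] ⁻¹' A)) atTop := by
        refine lt_of_lt_of_le ?_ (h A hA)
        exact ENNReal.sub_lt_self hfin h0 (by simpa using hδ)
      filter_upwards [eventually_lt_of_lt_liminf h2] with j hj
      rw [h1]
      have h3 := ENNReal.toReal_mono (measure_ne_top _ _) hj.le
      have h4 := ENNReal.le_toReal_sub (a := c * ν A) (b := ENNReal.ofReal δ)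
        ENNReal.ofReal_ne_top
      rw [ENNReal.toReal_ofReal hδ.le] at h4
      exact h4.trans h3

variable {α : Type*} [MeasurableSpace α] {μ : Measure α} [IsProbabilityMeasure μ]

theorem trivial_of_PR (F : Unit → MeasurableSpace (α × α))
    (hF : F () ≤ (Prod.instMeasurableSpace : MeasurableSpace (α × α)))
    (T : α ≃ᵐ α) (hT : MeasurePreserving T μ μ) (hE : Ergodic (Prod.map T T) (μ.prod μ))
    (hFS : ∀ s : Set (α × α), MeasurableSet[F ()] s ↔ MeasurableSet[F ()] (Prod.map T T ⁻¹' s))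
    (hI₁ : Indep (F ()) (MeasurableSpace.comap Prod.fst (inferInstance : MeasurableSpace α))
      (μ.prod μ))
    (hI₂ : Indep (F ()) (MeasurableSpace.comap Prod.snd (inferInstance : MeasurableSpace α))
      (μ.prod μ)) {c : ℝ} (hc0 : 0 < c) (hc1 : c ≤ 1) {n : ℕ → ℕ} (hn : Tendsto n atTop atTop)
    (h : PR μ T c n) {t : Set (α × α)} (ht : MeasurableSet[F ()] t) :
    (μ.prod μ).real t = 0 ∨ (μ.prod μ).real t = 1 := by
  have hmix : ∀ A : Set (α × α), MeasurableSet[F ()] A →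
      Tendsto (fun m : ℕ => (μ.prod μ).real (A ∩ (Prod.map T T)^[m] ⁻¹' A)) atTop
        (𝓝 ((μ.prod μ).real A * (μ.prod μ).real A)) :=
    fun A hA => mixing F hF T hT hE hFS hI₁ hI₂ (hF A hA) hA
  have hpre : ∀ A : Set (α × α), MeasurableSet[F ()] A → ∀ m : ℕ,
      MeasurableSet[F ()] ((Prod.map T T)^[m] ⁻¹' A) := by
    intro A hA m
    induction m with
    | zero => exact hA
    | succ m ih =>
      rw [Function.iterate_succ, Set.preimage_comp]
      exact (hFS _).mp ih
  -- the sets of positive measure are not small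
  have hlow : ∀ A : Set (α × α), MeasurableSet[F ()] A → 0 < (μ.prod μ).real A →
      c ^ 2 ≤ (μ.prod μ).real A := by
    intro A hA hpos
    have h1 : c ^ 2 * (μ.prod μ).real A ≤ (μ.prod μ).real A * (μ.prod μ).real A := by
      apply le_of_forall_sub_le
      intro δ hδ
      refine ge_of_tendsto ((hmix A hA).comp hn) ?_
      exact PR_prod hT hc0.le hc1 h A (hF A hA) δ hδ
    exact le_of_mul_le_mul_right h1 hpos
  obtain ⟨P, hP⟩ : ∃ P : Set ℝ, P = {x | ∃ A : Set (α × α), MeasurableSet[F ()] A ∧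
    x = (μ.prod μ).real A ∧ 0 < x} := ⟨_, rfl⟩
  have hbdd : BddBelow P := by
    refine ⟨0, fun x hx => ?_⟩
    rw [hP] at hx
    obtain ⟨A, _, _, hx⟩ := hx
    exact hx.le
  have hsq : ∀ x ∈ P, sInf P ≤ x * x := by
    intro x hx
    rw [hP] at hx
    obtain ⟨A, hA, hxA, hx⟩ := hx
    have h1 := hmix A hA
    rw [← hxA] at h1
    refine ge_of_tendsto h1 ?_
    filter_upwards [h1.eventually_const_lt (mul_pos hx hx)] with m hm
    apply csInf_le hbdd
    rw [hP]
    exact ⟨_, hA.inter (hpre A hA m), rfl, hm⟩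
  by_contra hcon
  push Not at hcon
  obtain ⟨hcon0, hcon1⟩ := hcon
  have ht0 : 0 < (μ.prod μ).real t := lt_of_le_of_ne measureReal_nonneg (Ne.symm hcon0)
  have ht1 : (μ.prod μ).real t < 1 := lt_of_le_of_ne measureReal_le_one hcon1
  have htP : (μ.prod μ).real t ∈ P := by
    rw [hP]
    exact ⟨t, ht, rfl, ht0⟩
  have hm0 : c ^ 2 ≤ sInf P := by
    apply le_csInf ⟨_, htP⟩
    intro x hx
    rw [hP] at hx
    obtain ⟨A, hA, rfl, hx⟩ := hx
    exact hlow A hA hx
  have hmpos : 0 < sInf P := lt_of_lt_of_le (by positivity) hm0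
  have hm1 : sInf P < 1 := lt_of_le_of_lt (csInf_le hbdd htP) ht1
  have hlt : sInf P < Real.sqrt (sInf P) := by
    rw [Real.lt_sqrt hmpos.le]
    nlinarith
  obtain ⟨x, hx, hx'⟩ := exists_lt_of_csInf_lt ⟨_, htP⟩ hlt
  have hx0 : 0 < x := by
    rw [hP] at hx
    obtain ⟨A, _, _, hx⟩ := hx
    exact hx
  have h1 := hsq x hx
  have h2 : x * x < Real.sqrt (sInf P) * Real.sqrt (sInf P) :=
    mul_lt_mul'' hx' hx' hx0.le hx0.le
  rw [Real.mul_self_sqrt hmpos.le] at h2
  linarith

end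

/-- independent factors of the square are mixing -/
theorem main_mixing (α : Type*) [MeasurableSpace α] (μ : Measure α) [IsProbabilityMeasure μ]
    (T : α ≃ᵐ α) (hT : MeasurePreserving T μ μ) (hE : Ergodic (Prod.map T T) (μ.prod μ))
    (F : MeasurableSpace (α × α))
    (hF : F ≤ (Prod.instMeasurableSpace : MeasurableSpace (α × α)))
    (hFS : ∀ s : Set (α × α), MeasurableSet[F] s ↔ MeasurableSet[F] (Prod.map T T ⁻¹' s))
    (hI₁ : Indep F (MeasurableSpace.comap Prod.fst (inferInstance : MeasurableSpace α)) (μ.prod μ))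
    (hI₂ : Indep F (MeasurableSpace.comap Prod.snd (inferInstance : MeasurableSpace α)) (μ.prod μ))
    (s t : Set (α × α)) (hs : MeasurableSet[Prod.instMeasurableSpace] s)
    (ht : MeasurableSet[F] t) :
    Tendsto (fun n : ℕ => (μ.prod μ) (s ∩ (Prod.map T T)^[n] ⁻¹' t)) atTop
      (𝓝 ((μ.prod μ) s * (μ.prod μ) t)) := by
  obtain ⟨F', hF'⟩ : ∃ F' : Unit → MeasurableSpace (α × α), F' () = F := ⟨fun _ => F, rfl⟩
  subst hF'
  have h1 := mixing F' hF T hT hE hFS hI₁ hI₂ hs ht
  have h2 : ∀ n : ℕ, ENNReal.ofReal ((μ.prod μ).real (s ∩ (Prod.map T T)^[n] ⁻¹' t)) =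
      (μ.prod μ) (s ∩ (Prod.map T T)^[n] ⁻¹' t) :=
    fun n => ENNReal.ofReal_toReal (measure_ne_top _ _)
  have h3 : ENNReal.ofReal ((μ.prod μ).real s * (μ.prod μ).real t) =
      (μ.prod μ) s * (μ.prod μ) t := by
    rw [ENNReal.ofReal_mul measureReal_nonneg]
    unfold Measure.real
    rw [ENNReal.ofReal_toReal (measure_ne_top _ _), ENNReal.ofReal_toReal (measure_ne_top _ _)]
  rw [← h3]
  exact (ENNReal.tendsto_ofReal h1).congr h2

/-- the square of a partially rigid transformation has no independent factor -/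
theorem main_rigid (α : Type*) [MeasurableSpace α] (μ : Measure α) [IsProbabilityMeasure μ]
    (T : α ≃ᵐ α) (hT : MeasurePreserving T μ μ) (hE : Ergodic (Prod.map T T) (μ.prod μ))
    (hR : PartiallyRigid μ T)
    (F : MeasurableSpace (α × α))
    (hF : F ≤ (Prod.instMeasurableSpace : MeasurableSpace (α × α)))
    (hFS : ∀ s : Set (α × α), MeasurableSet[F] s ↔ MeasurableSet[F] (Prod.map T T ⁻¹' s))
    (hI₁ : Indep F (MeasurableSpace.comap Prod.fst (inferInstance : MeasurableSpace α)) (μ.prod μ))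
    (hI₂ : Indep F (MeasurableSpace.comap Prod.snd (inferInstance : MeasurableSpace α)) (μ.prod μ))
    (t : Set (α × α)) (ht : MeasurableSet[F] t) :
    (μ.prod μ) t = 0 ∨ (μ.prod μ) t = 1 := by
  obtain ⟨F', hF'⟩ : ∃ F' : Unit → MeasurableSpace (α × α), F' () = F := ⟨fun _ => F, rfl⟩
  subst hF'
  obtain ⟨c, hc0, hc1, n, hn, h⟩ := hR.PR
  rcases trivial_of_PR F' hF T hT hE hFS hI₁ hI₂ hc0 hc1 hn h ht with h1 | h1
  · left
    exact (measureReal_eq_zero_iff (measure_ne_top _ _)).mp h1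
  · right
    have h2 := ENNReal.ofReal_toReal (measure_ne_top (μ.prod μ) t)
    rw [← h2]
    change (μ.prod μ t).toReal = 1 at h1
    rw [h1, ENNReal.ofReal_one]

end Pool.Agent.Work.MP_fa3ce5_an
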