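import Mathlib

/-!
# Weak limits of powers of a unitary operator along ultrafilters
-/

set_option autoImplicit false

namespace Pool.Agent.Work.MP_fa3ce5_an

open Filter Topology Set
open scoped InnerProductSpace

noncomputable section

/-- a bounded real function converges along an ultrafilter -/
theorem exists_ulim {ι : Type*} (𝒰 : Ultrafilter ι) (f : ι → ℝ) (C : ℝ)
    (hf : ∀ᶠ i in (𝒰 : Filter ι), |f i| ≤ C) : ∃ a : ℝ, |a| ≤ C ∧ Tendsto f 𝒰 (𝓝 a) := by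
  have h1 : ((𝒰.map f : Ultrafilter ℝ) : Filter ℝ) ≤ 𝓟 (Icc (-C) C) := by
    rw [le_principal_iff, Ultrafilter.coe_map, mem_map]
    filter_upwards [hf] with i hi
    exact abs_le.mp hi
  obtain ⟨a, ha, hle⟩ := isCompact_Icc.ultrafilter_le_nhds _ h1
  exact ⟨a, abs_le.mpr ha, hle⟩

variable {H : Type*} [NormedAddCommGroup H] [InnerProductSpace ℝ H]

/-- weak convergence along an ultrafilter -/
def WL {ι : Type*} (𝒰 : Ultrafilter ι) (w : ι → H) (a : H) : Prop :=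
  ∀ u : H, Tendsto (fun i => ⟪w i, u⟫_ℝ) 𝒰 (𝓝 ⟪a, u⟫_ℝ)

theorem WL.unique {ι : Type*} {𝒰 : Ultrafilter ι} {w : ι → H} {a b : H} (ha : WL 𝒰 w a)
    (hb : WL 𝒰 w b) : a = b := by
  apply ext_inner_right ℝ
  intro u
  exact tendsto_nhds_unique (ha u) (hb u)

theorem WL.norm_le {ι : Type*} {𝒰 : Ultrafilter ι} {w : ι → H} {a : H} {C : ℝ} (ha : WL 𝒰 w a)
    (hw : ∀ᶠ i in (𝒰 : Filter ι), ‖w i‖ ≤ C) : ‖a‖ ≤ C := by
  have h1 : ⟪a, a⟫_ℝ ≤ C * ‖a‖ := by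
    refine le_of_tendsto (ha a) ?_
    filter_upwards [hw] with i hi
    exact (real_inner_le_norm _ _).trans (mul_le_mul_of_nonneg_right hi (norm_nonneg _))
  rw [real_inner_self_eq_norm_sq] at h1
  rcases eq_or_lt_of_le (norm_nonneg a) with h2 | h2
  · obtain ⟨i, hi⟩ := hw.exists
    rw [← h2]
    exact (norm_nonneg _).trans hi
  · nlinarith

theorem exists_wlim [CompleteSpace H] {ι : Type*} (𝒰 : Ultrafilter ι) (w : ι → H) (C : ℝ)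
    (hw : ∀ᶠ i in (𝒰 : Filter ι), ‖w i‖ ≤ C) : ∃ a : H, WL 𝒰 w a := by
  have h1 : ∀ u : H, ∃ a : ℝ, |a| ≤ C * ‖u‖ ∧ Tendsto (fun i => ⟪w i, u⟫_ℝ) 𝒰 (𝓝 a) := by
    intro u
    apply exists_ulim
    filter_upwards [hw] with i hi
    exact (abs_real_inner_le_norm _ _).trans (mul_le_mul_of_nonneg_right hi (norm_nonneg _))
  choose L hL1 hL2 using h1
  let Ll : H →ₗ[ℝ] ℝ :=
    { toFun := L
      map_add' := by
        intro u v
        refine tendsto_nhds_unique (hL2 (u + v)) ?_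
        simpa only [inner_add_right] using (hL2 u).add (hL2 v)
      map_smul' := by
        intro c u
        refine tendsto_nhds_unique (hL2 (c • u)) ?_
        simpa only [inner_smul_right, smul_eq_mul, RingHom.id_apply] using (hL2 u).const_mul c }
  let Lc : H →L[ℝ] ℝ := Ll.mkContinuous C (fun u => hL1 u)
  refine ⟨(InnerProductSpace.toDual ℝ H).symm Lc, fun u => ?_⟩
  rw [InnerProductSpace.toDual_symm_apply]
  exact hL2 u

variable (U : H ≃ₗᵢ[ℝ] H)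

theorem pow_add_apply (n m : ℤ) (u : H) : (U ^ (n + m)) u = (U ^ n) ((U ^ m) u) := by
  rw [zpow_add]
  rfl

theorem inner_pow (n : ℤ) (u v : H) : ⟪(U ^ n) u, v⟫_ℝ = ⟪u, (U ^ (-n)) v⟫_ℝ := by
  rw [← LinearIsometryEquiv.inner_map_map (U ^ n) u ((U ^ (-n)) v), ← pow_add_apply,
    add_neg_cancel, zpow_zero]
  rfl

section
variable [CompleteSpace H]

theorem exists_P (𝒰 : Ultrafilter ℤ) : ∃ P : H →L[ℝ] H, ∀ u, WL 𝒰 (fun n => (U ^ n) u) (P u) := by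
  have h1 : ∀ u : H, ∃ a : H, WL 𝒰 (fun n => (U ^ n) u) a := by
    intro u
    apply exists_wlim 𝒰 _ ‖u‖
    exact Eventually.of_forall (fun n => (LinearIsometryEquiv.norm_map _ _).le)
  choose P hP using h1
  let Pl : H →ₗ[ℝ] H :=
    { toFun := P
      map_add' := by
        intro u v
        refine (hP (u + v)).unique ?_
        intro w
        simpa only [map_add, inner_add_left] using (hP u w).add (hP v w)
      map_smul' := by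
        intro c u
        refine (hP (c • u)).unique ?_
        intro w
        simpa only [map_smul, inner_smul_left, RingHom.id_apply, conj_trivial] using
          (hP u w).const_mul c }
  refine ⟨Pl.mkContinuous 1 (fun u => ?_), fun u => hP u⟩
  rw [one_mul]
  exact (hP u).norm_le (Eventually.of_forall (fun n => (LinearIsometryEquiv.norm_map _ _).le))

/-- the weak limit of the powers of `U` along the ultrafilter -/
def PP (𝒰 : Ultrafilter ℤ) : H →L[ℝ] H := (exists_P U 𝒰).choose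

theorem PP_spec (𝒰 : Ultrafilter ℤ) (u : H) : WL 𝒰 (fun n => (U ^ n) u) (PP U 𝒰 u) :=
  (exists_P U 𝒰).choose_spec u

/-- the adjoint of the weak limit -/
def PA (𝒰 : Ultrafilter ℤ) : H →L[ℝ] H := ContinuousLinearMap.adjoint (PP U 𝒰)

theorem PA_spec (𝒰 : Ultrafilter ℤ) (u : H) : WL 𝒰 (fun n => (U ^ (-n)) u) (PA U 𝒰 u) := by
  intro v
  have h1 : ⟪PA U 𝒰 u, v⟫_ℝ = ⟪PP U 𝒰 v, u⟫_ℝ := by
    unfold PA
    rw [ContinuousLinearMap.adjoint_inner_left, real_inner_comm]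
  rw [h1]
  refine (PP_spec U 𝒰 v u).congr (fun n => ?_)
  rw [inner_pow, real_inner_comm]

theorem PP_pow (𝒰 : Ultrafilter ℤ) (m : ℤ) (u : H) :
    PP U 𝒰 ((U ^ m) u) = (U ^ m) (PP U 𝒰 u) := by
  refine (PP_spec U 𝒰 _).unique ?_
  intro v
  rw [inner_pow]
  refine (PP_spec U 𝒰 u _).congr (fun n => ?_)
  show _ = ⟪(U ^ n) ((U ^ m) u), v⟫_ℝ
  rw [← inner_pow, ← pow_add_apply, ← pow_add_apply, add_comm]

theorem PP_comm (𝒰 𝒱 : Ultrafilter ℤ) (u : H) : PP U 𝒰 (PP U 𝒱 u) = PP U 𝒱 (PP U 𝒰 u) := by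
  refine (PP_spec U 𝒰 _).unique ?_
  intro v
  have h1 : ⟪PP U 𝒱 (PP U 𝒰 u), v⟫_ℝ = ⟪PP U 𝒰 u, PA U 𝒱 v⟫_ℝ := by
    unfold PA
    rw [ContinuousLinearMap.adjoint_inner_right]
  rw [h1]
  refine (PP_spec U 𝒰 u _).congr (fun n => ?_)
  unfold PA
  rw [ContinuousLinearMap.adjoint_inner_right, PP_pow]

theorem PA_pow (𝒰 : Ultrafilter ℤ) (m : ℤ) (u : H) :
    PA U 𝒰 ((U ^ m) u) = (U ^ m) (PA U 𝒰 u) := by
  refine (PA_spec U 𝒰 _).unique ?_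
  intro v
  rw [inner_pow]
  refine (PA_spec U 𝒰 u _).congr (fun n => ?_)
  show _ = ⟪(U ^ (-n)) ((U ^ m) u), v⟫_ℝ
  rw [← inner_pow, ← pow_add_apply, ← pow_add_apply, add_comm]

theorem PP_PA (𝒰 𝒱 : Ultrafilter ℤ) (u : H) : PP U 𝒰 (PA U 𝒱 u) = PA U 𝒱 (PP U 𝒰 u) := by
  refine (PP_spec U 𝒰 _).unique ?_
  intro v
  have h1 : ⟪PA U 𝒱 (PP U 𝒰 u), v⟫_ℝ = ⟪PP U 𝒰 u, PP U 𝒱 v⟫_ℝ := by
    unfold PA
    rw [ContinuousLinearMap.adjoint_inner_left]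
  rw [h1]
  refine (PP_spec U 𝒰 u _).congr (fun n => ?_)
  have h2 : ⟪(U ^ n) (PA U 𝒱 u), v⟫_ℝ = ⟪PA U 𝒱 ((U ^ n) u), v⟫_ℝ := by rw [PA_pow]
  rw [h2]
  unfold PA
  rw [ContinuousLinearMap.adjoint_inner_left]

/-- the operator `P^* P` -/
def AA (𝒰 : Ultrafilter ℤ) (u : H) : H := PA U 𝒰 (PP U 𝒰 u)

theorem inner_AA (𝒰 : Ultrafilter ℤ) (u v : H) : ⟪AA U 𝒰 u, v⟫_ℝ = ⟪PP U 𝒰 u, PP U 𝒰 v⟫_ℝ := by
  unfold AA PA
  rw [ContinuousLinearMap.adjoint_inner_left]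

theorem inner_AA' (𝒰 : Ultrafilter ℤ) (u v : H) : ⟪AA U 𝒰 u, v⟫_ℝ = ⟪u, AA U 𝒰 v⟫_ℝ := by
  rw [inner_AA, real_inner_comm, ← inner_AA, real_inner_comm]

theorem AA_comm (𝒰 𝒱 : Ultrafilter ℤ) (u : H) : AA U 𝒰 (AA U 𝒱 u) = AA U 𝒱 (AA U 𝒰 u) := by
  apply ext_inner_right ℝ
  intro v
  rw [inner_AA, inner_AA, AA, AA, PP_PA, PP_PA]
  unfold PA
  rw [ContinuousLinearMap.adjoint_inner_left, ContinuousLinearMap.adjoint_inner_left,
    PP_comm U 𝒰 𝒱, PP_comm U 𝒱 𝒰 v]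

theorem AA_add (𝒰 : Ultrafilter ℤ) (u v : H) : AA U 𝒰 (u + v) = AA U 𝒰 u + AA U 𝒰 v := by
  simp [AA]

theorem AA_sub (𝒰 : Ultrafilter ℤ) (u v : H) : AA U 𝒰 (u - v) = AA U 𝒰 u - AA U 𝒰 v := by
  simp [AA]

theorem AA_smul (𝒰 : Ultrafilter ℤ) (c : ℝ) (u : H) : AA U 𝒰 (c • u) = c • AA U 𝒰 u := by
  simp [AA]

/-- if the weak limit preserves the norm of `u` then the convergence is strong -/
theorem strong_of_norm (𝒰 : Ultrafilter ℤ) (u : H) (h : ‖PP U 𝒰 u‖ = ‖u‖) :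
    Tendsto (fun n : ℤ => (U ^ n) u) 𝒰 (𝓝 (PP U 𝒰 u)) := by
  rw [tendsto_iff_norm_sub_tendsto_zero]
  have h1 : Tendsto (fun n : ℤ => ‖(U ^ n) u - PP U 𝒰 u‖ ^ 2) 𝒰 (𝓝 0) := by
    have h2 : Tendsto (fun n : ℤ => 2 * ‖u‖ ^ 2 - 2 * ⟪(U ^ n) u, PP U 𝒰 u⟫_ℝ) 𝒰
        (𝓝 (2 * ‖u‖ ^ 2 - 2 * ⟪PP U 𝒰 u, PP U 𝒰 u⟫_ℝ)) :=
      tendsto_const_nhds.sub ((PP_spec U 𝒰 u _).const_mul 2)
    rw [real_inner_self_eq_norm_sq, h, sub_self] at h2
    refine h2.congr (fun n => ?_)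
    rw [norm_sub_sq_real, LinearIsometryEquiv.norm_map, h]
    ring
  have h3 := h1.sqrt
  simpa using h3

end

end

end Pool.Agent.Work.MP_fa3ce5_an
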